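import Mathlib

namespace Pool.Agent.Results.MP_e9a5a5_pr.FixedPoints

open Filter Topology

/-- `F` is the distribution function of a probability measure on the real line. -/
def IsCDF (F : ℝ → ℝ) : Prop :=
  Monotone F ∧ (∀ x, ContinuousWithinAt F (Set.Ici x) x) ∧
    Tendsto F atBot (𝓝 0) ∧ Tendsto F atTop (𝓝 1)

/-- convolution with the uniform law on `{-1, 1}` -/
noncomputable def conv (F : ℝ → ℝ) (x : ℝ) : ℝ := 1 / 2 * (F (x - 1) + F (x + 1))

/-- the max step `Φ F = (μ * F)^2` -/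
noncomputable def Phi (F : ℝ → ℝ) (x : ℝ) : ℝ := (conv F x) ^ 2

/-- the min step `Φ' F = 1 - (1 - μ * F)^2` -/
noncomputable def Phi' (F : ℝ → ℝ) (x : ℝ) : ℝ := 1 - (1 - conv F x) ^ 2

/-- `Ψ = Φ ∘ Φ'` -/
noncomputable def Psi (F : ℝ → ℝ) : ℝ → ℝ := Phi (Phi' F)

/-- `h(p) = 2 √p - p` -/
noncomputable def h (p : ℝ) : ℝ := 2 * √p - p

lemma h_lower {a b : ℝ} (ha : 0 ≤ a) (ha' : a ≤ 1 / 9) (hb : 0 ≤ b) (hb' : b ≤ 1 / 9) :
    2 * |a - b| ≤ |h a - h b| := by
  have hu : √a ≤ 1 / 3 := by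
    rw [Real.sqrt_le_left (by norm_num)]
    norm_num at ha' ⊢
    exact ha'
  have hv : √b ≤ 1 / 3 := by
    rw [Real.sqrt_le_left (by norm_num)]
    norm_num at hb' ⊢
    exact hb'
  have hu0 := Real.sqrt_nonneg a
  have hv0 := Real.sqrt_nonneg b
  have h1 : a - b = (√a - √b) * (√a + √b) := by
    nlinarith [Real.mul_self_sqrt ha, Real.mul_self_sqrt hb]
  have h2 : h a - h b = (√a - √b) * (2 - (√a + √b)) := by
    unfold h
    nlinarith [Real.mul_self_sqrt ha, Real.mul_self_sqrt hb]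
  rw [h1, h2, abs_mul, abs_mul, abs_of_nonneg (add_nonneg hu0 hv0),
    abs_of_nonneg (by linarith : (0 : ℝ) ≤ 2 - (√a + √b))]
  nlinarith [abs_nonneg (√a - √b)]

lemma h_inj {a b : ℝ} (ha : 0 ≤ a) (ha' : a ≤ 1) (hb : 0 ≤ b) (hb' : b ≤ 1)
    (hab : h a = h b) : a = b := by
  have hu : √a ≤ 1 := by
    rw [Real.sqrt_le_left (by norm_num)]
    simpa using ha'
  have hv : √b ≤ 1 := by
    rw [Real.sqrt_le_left (by norm_num)]
    simpa using hb'
  have h2 : h a - h b = (√a - √b) * (2 - (√a + √b)) := by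
    unfold h
    nlinarith [Real.mul_self_sqrt ha, Real.mul_self_sqrt hb]
  rw [hab, sub_self] at h2
  rcases mul_eq_zero.1 h2.symm with h3 | h3
  · have : √a = √b := by linarith
    rw [← Real.sq_sqrt ha, ← Real.sq_sqrt hb, this]
  · have h4 : √a = 1 := by linarith
    have h5 : √b = 1 := by linarith
    rw [← Real.sq_sqrt ha, ← Real.sq_sqrt hb, h4, h5]

/-- Every CDF fixed by `Ψ` satisfies `F(x+2) = h(F(x))`. -/
theorem result (F : ℝ → ℝ) (hF : IsCDF F) (hfix : Psi F = F) (x : ℝ) :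
    F (x + 2) = h (F x) := by
  obtain ⟨hmono, -, hbot, htop⟩ := hF
  have hF0 : ∀ y, 0 ≤ F y := fun y => hmono.le_of_tendsto hbot y
  have hF1 : ∀ y, F y ≤ 1 := fun y => hmono.ge_of_tendsto htop y
  set A : ℤ → ℝ := fun i => F (x + 2 * i) with hA
  set m : ℤ → ℝ := fun i => (A (i - 1) + A i) / 2 with hm
  set C : ℤ → ℝ := fun i => 1 - (1 - m i) ^ 2 with hC
  have hA0 : ∀ i, 0 ≤ A i := fun i => hF0 _
  have hA1 : ∀ i, A i ≤ 1 := fun i => hF1 _
  have hm0 : ∀ i, 0 ≤ m i := fun i => by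
    have := hA0 (i - 1)
    have := hA0 i
    simp only [hm]
    linarith
  have hm1 : ∀ i, m i ≤ 1 := fun i => by
    have := hA1 (i - 1)
    have := hA1 i
    simp only [hm]
    linarith
  have hC0 : ∀ i, 0 ≤ C i := fun i => by
    have := hm0 i
    have := hm1 i
    simp only [hC]
    nlinarith
  have hC1 : ∀ i, C i ≤ 1 := fun i => by
    simp only [hC]
    nlinarith [sq_nonneg (1 - m i)]
  have hkey : ∀ i, C i + C (i + 1) = 2 * √(A i) := by
    intro i
    have h1 : ((C i + C (i + 1)) / 2) ^ 2 = A i := by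
      have h2 := congrFun hfix (x + 2 * i)
      simp only [Psi, Phi, Phi', conv] at h2
      simp only [hC, hm, hA]
      push_cast
      have e1 : x + 2 * (i : ℝ) - 1 - 1 = x + 2 * ((i : ℝ) - 1) := by ring
      have e2 : x + 2 * (i : ℝ) - 1 + 1 = x + 2 * (i : ℝ) := by ring
      have e3 : x + 2 * (i : ℝ) + 1 - 1 = x + 2 * (i : ℝ) := by ring
      have e4 : x + 2 * (i : ℝ) + 1 + 1 = x + 2 * ((i : ℝ) + 1) := by ring
      have e5 : x + 2 * ((i : ℝ) + 1 - 1) = x + 2 * (i : ℝ) := by ring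
      rw [e1, e2, e3, e4] at h2
      rw [e5]
      linear_combination h2
    have h2 : 0 ≤ (C i + C (i + 1)) / 2 := by
      have := hC0 i
      have := hC0 (i + 1)
      linarith
    rw [← h1, Real.sqrt_sq h2]
    ring
  set D : ℤ → ℝ := fun i => A i - C i with hD
  have hq : ∀ i, A (i - 1) + D i = (m i) ^ 2 := by
    intro i
    simp only [hD, hC, hm]
    ring
  have hhq : ∀ i, h ((m i) ^ 2) = C i := by
    intro i
    unfold h
    rw [Real.sqrt_sq (hm0 i)]
    simp only [hC]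
    ring
  have hDh : ∀ i, D (i - 1) = h ((m i) ^ 2) - h (A (i - 1)) := by
    intro i
    have h1 := hkey (i - 1)
    rw [sub_add_cancel] at h1
    rw [hhq]
    simp only [hD, h]
    linarith
  have hD1 : ∀ i, |D i| ≤ 1 := by
    intro i
    rw [abs_le]
    simp only [hD]
    exact ⟨by linarith [hA0 i, hC1 i], by linarith [hA1 i, hC0 i]⟩
  -- a threshold
  obtain ⟨i₀, hi₀⟩ : ∃ i₀ : ℤ, A i₀ ≤ 1 / 9 := by
    have h1 := (tendsto_order.1 hbot).2 (1 / 9) (by norm_num)
    obtain ⟨y, hy⟩ := h1.exists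
    obtain ⟨i, hi⟩ := exists_int_lt ((y - x) / 2)
    refine ⟨i, le_trans (hmono ?_) hy.le⟩
    linarith
  have hAm : ∀ i j : ℤ, i ≤ j → A i ≤ A j := by
    intro i j hij
    apply hmono
    have : (i : ℝ) ≤ j := by exact_mod_cast hij
    linarith
  have hsmall : ∀ i ≤ i₀, 2 * |D i| ≤ |D (i - 1)| := by
    intro i hi
    have h1 : A i ≤ 1 / 9 := (hAm i i₀ hi).trans hi₀
    have h2 : A (i - 1) ≤ 1 / 9 := (hAm (i - 1) i₀ (by omega)).trans hi₀
    have h3 : m i ≤ 1 / 9 := by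
      simp only [hm]
      linarith
    have h4 : (m i) ^ 2 ≤ 1 / 9 := by
      have := hm0 i
      nlinarith
    have h5 := h_lower (sq_nonneg (m i)) h4 (hA0 (i - 1)) h2
    rw [← hDh i, ← hq i] at h5
    simpa using h5
  have hpow : ∀ (k : ℕ) (i : ℤ), i ≤ i₀ → 2 ^ k * |D i| ≤ |D (i - k)| := by
    intro k
    induction k with
    | zero => intro i _; simp
    | succ k ih =>
      intro i hi
      have h1 := ih i hi
      have h2 := hsmall (i - k) (by omega)
      have h3 : i - (k : ℤ) - 1 = i - ((k + 1 : ℕ) : ℤ) := by push_cast; ring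
      rw [h3] at h2
      calc (2 : ℝ) ^ (k + 1) * |D i| = 2 * (2 ^ k * |D i|) := by ring
        _ ≤ 2 * |D (i - k)| := by linarith
        _ ≤ _ := h2
  have hzero : ∀ i ≤ i₀, D i = 0 := by
    intro i hi
    by_contra hne
    have hpos : 0 < |D i| := abs_pos.2 hne
    obtain ⟨k, hk⟩ := pow_unbounded_of_one_lt (|D i|)⁻¹ (by norm_num : (1 : ℝ) < 2)
    have h1 := (hpow k i hi).trans (hD1 _)
    have h2 : (1 : ℝ) < 2 ^ k * |D i| := by
      rw [inv_lt_iff_one_lt_mul₀ hpos] at hk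
      exact hk
    linarith
  have hall : ∀ i, i₀ ≤ i → D i = 0 := by
    intro i hi
    induction i, hi using Int.leInduction with
    | base => exact hzero _ le_rfl
    | succ i hi ih =>
      have h1 := hDh (i + 1)
      rw [add_sub_cancel_right, ih] at h1
      have h2 : (m (i + 1)) ^ 2 ≤ 1 := by
        have := hm0 (i + 1)
        have := hm1 (i + 1)
        nlinarith
      have h3 := h_inj (sq_nonneg (m (i + 1))) h2 (hA0 i) (hA1 i) (by linarith)
      have h4 := hq (i + 1)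
      rw [add_sub_cancel_right, h3] at h4
      linarith
  have hall' : ∀ i, D i = 0 := by
    intro i
    rcases le_total i i₀ with hi | hi
    · exact hzero i hi
    · exact hall i hi
  have h0 := hall' 0
  have h1 := hall' 1
  have h2 := hkey 0
  simp only [hD] at h0 h1
  rw [zero_add] at h2
  have e0 : A 0 = F x := by simp [hA]
  have e1 : A 1 = F (x + 2) := by simp [hA]
  rw [← e0, ← e1]
  unfold h
  linarith

end Pool.Agent.Results.MP_e9a5a5_pr.FixedPoints
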